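import Pool.Agent.H343Y.Z

/-!
# One of the seven numbers `ζ(9)`, `ζ(11)`, …, `ζ(21)` is irrational

The proof (see `Pool/Agent/H343Y/`, `Pool/Agent/H343Z/` and `Pool/Agent/H336R2/HD/`) compares, for Hankel
determinants of linear forms in `1, ζ(9), ζ(11), …, ζ(21)` (sixth derivatives of a well-poised rational
function with poles of order sixteen), an archimedean bound on a slanted contour, with explicit
polynomials, with `p`-adic bounds for all primes `p`; if the seven numbers were rational, the product
formula would fail for large prime parameters, where the determinant does not vanish.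

Credits (helpers of this team): design and assembly helper343 (libraries of helpers 336 and 337); see the
table of the modules in `departures/helper343.md`.
-/

namespace Pool.Agent.Results.MP_db0fbf_nt.OddZeta9To21

/-- There is an odd `j` with `9 ≤ j ≤ 21` such that `ζ(j) = ∑ 1/(n+1)^j` is irrational. -/
theorem result : ∃ j : ℕ, Odd j ∧ 9 ≤ j ∧ j ≤ 21 ∧ Irrational (∑' n : ℕ, 1 / ((n : ℝ) + 1) ^ j) := by
  obtain ⟨i, hi, h⟩ := Pool.Agent.H343Y.Z_main
  refine ⟨i, ?_, ?_, ?_, h⟩
  · fin_cases hi <;> decide
  · fin_cases hi <;> decide
  · fin_cases hi <;> decide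

end Pool.Agent.Results.MP_db0fbf_nt.OddZeta9To21
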