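import Mathlib
import Pool.Agent.H447R2.MZ.Alg

set_option autoImplicit false

namespace Pool.Agent.Results.MP_db0fbf_nt.TranscendenceOrDimension

/-- The `ℚ`-span of the multiple zeta values of weight `n` (weight `0` gives `ℚ`, weight `1`
gives `0`). -/
noncomputable def Z (n : ℕ) : Submodule ℚ ℝ :=
  Submodule.span ℚ
    {x : ℝ | ∃ t : ℕ, ∃ k : Fin t → ℕ,
      (∀ i, 1 ≤ k i) ∧ (∀ h : 0 < t, 2 ≤ k ⟨0, h⟩) ∧ (∑ i, k i) = n ∧
      x = ∑' m : {m : Fin t → ℕ // StrictAnti m ∧ ∀ i, 1 ≤ m i},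
            ∏ i, (((m.1 i : ℕ) : ℝ) ^ (k i))⁻¹}

/-- For all `k ≥ 1` and `n ≥ 2`: either the dimension of the span of the multiple zeta values of
weight `n` is at least `⌊n/(4k+2)⌋ + 1` (`n` even), `⌊(n-3)/(4k+2)⌋ + 1` (`n` odd), or all the
numbers `ζ(3), ζ(5), …, ζ(2k+1)` are transcendental (so irrational) and the numbers
`(ζ(2j+1)/π^(2j+1))²`, `1 ≤ j ≤ k`, are algebraic of degree less than this bound. -/
theorem result (k n : ℕ) (hk : 1 ≤ k) (hn : 2 ≤ n) :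
    (((n - 3 * (n % 2)) / (2 * (2 * k + 1)) + 1 : ℕ) : Cardinal) ≤ Module.rank ℚ (Z n) ∨
    ∀ j : ℕ, 1 ≤ j → j ≤ k →
      Transcendental ℚ (∑' i : ℕ, (1 : ℝ) / ((i : ℝ) + 1) ^ (2 * j + 1)) ∧
      Irrational (∑' i : ℕ, (1 : ℝ) / ((i : ℝ) + 1) ^ (2 * j + 1)) ∧
      ∃ P : Polynomial ℚ, P ≠ 0 ∧ P.natDegree ≤ (n - 3 * (n % 2)) / (2 * (2 * k + 1)) ∧
        Polynomial.aeval
          (((∑' i : ℕ, (1 : ℝ) / ((i : ℝ) + 1) ^ (2 * j + 1)) / Real.pi ^ (2 * j + 1)) ^ 2) P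
          = 0 := by
  by_cases hr : (((n - 3 * (n % 2)) / (2 * (2 * k + 1)) + 1 : ℕ) : Cardinal) ≤
      Module.rank ℚ (Z n)
  · exact Or.inl hr
  · right
    intro j hj hjk
    set M := (n - 3 * (n % 2)) / (2 * (2 * k + 1)) with hM
    have hfin := Pool.Agent.H447R2.MZ.finite_Zs n
    have hle : Module.finrank ℚ (Pool.Agent.H447R2.MZ.Zs n) ≤ M := by
      by_contra hlt
      push Not at hlt
      apply hr
      change ((M + 1 : ℕ) : Cardinal) ≤ Module.rank ℚ (Pool.Agent.H447R2.MZ.Zs n)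
      rw [← Module.finrank_eq_rank]
      exact_mod_cast hlt
    have hz := Pool.Agent.H447R2.MZ.zeta_mem (2 * j + 1) (by omega)
    have hpos := Pool.Agent.H447R2.MZ.zeta_pos (2 * j + 1) (by omega)
    have h1 : 2 * (2 * k + 1) * M ≤ n - 3 * (n % 2) := Nat.mul_div_le _ _
    have h2 : 2 * (2 * j + 1) * M ≤ 2 * (2 * k + 1) * M :=
      Nat.mul_le_mul_right _ (by omega)
    have h3 : 3 * (n % 2) ≤ n := by omega
    have hP := Pool.Agent.H447R2.MZ.degree_le (2 * j + 1) _ hz M n (by omega) hle hn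
    have htr : Transcendental ℚ (∑' i : ℕ, (1 : ℝ) / ((i : ℝ) + 1) ^ (2 * j + 1)) := by
      intro ha
      have ht := Pool.Agent.H447R2.MZ.transcendental_div (2 * j + 1) (by omega) _ hpos.ne' ha
      obtain ⟨P, hP0, _, hPz⟩ := hP
      exact (ht.pow (by norm_num : 0 < 2)) ⟨P, hP0, hPz⟩
    exact ⟨htr, htr.irrational, hP⟩

end Pool.Agent.Results.MP_db0fbf_nt.TranscendenceOrDimension
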